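import Pool.Agent.W2helper8.ZQ.Stm

/-!
Piece ZE1 of project ZQ (helper8): the smoothed Dirichlet series approximates `|ζ(1+iu)|^b`.
-/

set_option autoImplicit false

namespace Pool.Agent.W2helper16.ZQ

open Finset Filter Topology MeasureTheory Complex
open Pool.Agent.W2helper8.ZQ

/-- powers of `L` times stretched exponentials tend to zero -/
lemma tendsto_aux (p q κ : ℝ) (hq : 0 < q) (hκ : 0 < κ) :
    Tendsto (fun L : ℝ => L ^ p * Real.exp (-(κ * L ^ q))) atTop (𝓝 0) := by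
  have h1 : Tendsto (fun L : ℝ => (L ^ q) ^ (p / q) * Real.exp (-κ * L ^ q)) atTop (𝓝 0) :=
    (tendsto_rpow_mul_exp_neg_mul_atTop_nhds_zero (p / q) κ hκ).comp (tendsto_rpow_atTop hq)
  refine h1.congr' ?_
  filter_upwards [eventually_gt_atTop 0] with L hL
  rw [← Real.rpow_mul hL.le, mul_div_cancel₀ _ hq.ne']
  ring_nf

/-- the error terms together are small -/
lemma err_small (b K K₀ δ : ℝ) (hδ : 0 < δ) :
    ∀ᶠ L : ℝ in atTop,
      10 * L ^ K₀ * (Real.exp (-(1 / 2 * L ^ (δ / 2))) / (L ^ (δ - 1) / 2) +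
        Real.exp 1 * Real.exp (-(L ^ 2))) +
      10 * (2 * L ^ (1 - δ / 2)) ^ |b| * Real.exp 1 * L ^ (1 - δ / 2) * Real.exp (-(L ^ 2)) ≤
      L ^ (-K) := by
  have t1 := tendsto_aux (K₀ + (1 - δ) + K) (δ / 2) (1 / 2) (by linarith) (by norm_num)
  have t2 := tendsto_aux (K₀ + K) 2 1 (by norm_num) (by norm_num)
  have t3 := tendsto_aux ((1 - δ / 2) * |b| + (1 - δ / 2) + K) 2 1 (by norm_num) (by norm_num)
  have t : Tendsto (fun L : ℝ => 20 * (L ^ (K₀ + (1 - δ) + K) * Real.exp (-(1 / 2 * L ^ (δ / 2)))) +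
      10 * Real.exp 1 * (L ^ (K₀ + K) * Real.exp (-(1 * L ^ (2 : ℝ)))) +
      10 * 2 ^ |b| * Real.exp 1 * (L ^ ((1 - δ / 2) * |b| + (1 - δ / 2) + K) *
        Real.exp (-(1 * L ^ (2 : ℝ))))) atTop (𝓝 0) := by
    have := ((t1.const_mul 20).add (t2.const_mul (10 * Real.exp 1))).add
      (t3.const_mul (10 * 2 ^ |b| * Real.exp 1))
    simpa using this
  filter_upwards [t.eventually_le_const (show (0 : ℝ) < 1 by norm_num), eventually_gt_atTop 0]
    with L hL hL0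
  have e1 : L ^ (K₀ + (1 - δ) + K) = L ^ K₀ * L ^ (1 - δ) * L ^ K := by
    rw [Real.rpow_add hL0, Real.rpow_add hL0]
  have e2 : L ^ (K₀ + K) = L ^ K₀ * L ^ K := Real.rpow_add hL0 _ _
  have e3 : L ^ ((1 - δ / 2) * |b| + (1 - δ / 2) + K) =
      (L ^ (1 - δ / 2)) ^ |b| * L ^ (1 - δ / 2) * L ^ K := by
    rw [Real.rpow_add hL0, Real.rpow_add hL0, Real.rpow_mul hL0.le]
  have e4 : L ^ (δ - 1) = (L ^ (1 - δ))⁻¹ := by
    rw [← Real.rpow_neg hL0.le]; ring_nf
  have e5 : L ^ (2 : ℝ) = L ^ 2 := by norm_cast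
  have e6 : (2 * L ^ (1 - δ / 2)) ^ |b| = 2 ^ |b| * (L ^ (1 - δ / 2)) ^ |b| :=
    Real.mul_rpow (by norm_num) (Real.rpow_nonneg hL0.le _)
  have hK : 0 < L ^ K := Real.rpow_pos_of_pos hL0 _
  have h1d : 0 < L ^ (1 - δ) := Real.rpow_pos_of_pos hL0 _
  rw [e1, e2, e3, e5] at hL
  rw [Real.rpow_neg hL0.le, ← one_div, le_div_iff₀ hK, e4, e6]
  refine le_trans (le_of_eq ?_) hL
  field_simp
  ring

theorem p_ze1 (h1 : S_VB) (h2 : S_ZD) (h3 : S_ZR) (h4 : S_ZL) : S_ZE1 := by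
  intro b a K ha
  obtain ⟨δ, K₀, hδ, hδ1, hK₀, hR⟩ := h3 b a ha
  have hlog := Real.tendsto_log_atTop
  have hL8 : ∀ᶠ L : ℝ in atTop, L ^ (-(δ / 2)) ≤ 1 / 8 :=
    (tendsto_rpow_neg_atTop (by linarith : 0 < δ / 2)).eventually_le_const (by norm_num)
  have hlin : ∀ᶠ T : ℝ in atTop, Real.log T ≤ a / 9 * T := by
    have := Real.isLittleO_log_id_atTop.def (show (0 : ℝ) < a / 9 by positivity)
    filter_upwards [this, eventually_ge_atTop 1] with T hT hT1
    simp only [id, Real.norm_eq_abs] at hT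
    rwa [abs_of_nonneg (Real.log_nonneg hT1), abs_of_nonneg (by linarith)] at hT
  filter_upwards [hR, hlin, hlog.eventually (err_small b K K₀ δ hδ), hlog.eventually hL8,
    hlog.eventually_ge_atTop 1, eventually_ge_atTop 2] with T hR hlin herr hL8 hL1 hT2
  set L := Real.log T with hL
  have hL0 : 0 < L := by linarith
  have hT0 : 0 < T := by linarith
  have hX : Real.log (Real.exp (L ^ (1 - δ / 2))) = L ^ (1 - δ / 2) := Real.log_exp _
  have hLL1 : 1 ≤ L ^ (1 - δ / 2) := Real.one_le_rpow hL1 (by linarith)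
  have hLL0 : 0 < L ^ (1 - δ / 2) := by linarith
  refine ⟨Real.exp (L ^ (1 - δ / 2)), Real.one_le_exp (by positivity), ?_, ?_, ?_⟩
  · rw [hX]
    exact Real.rpow_le_rpow_of_exponent_le hL1 (by linarith)
  · rw [hX]
    have : L ^ (1 - δ / 2) = L * L ^ (-(δ / 2)) := by
      rw [show 1 - δ / 2 = 1 + -(δ / 2) by ring, Real.rpow_add hL0, Real.rpow_one]
    rw [this]
    nlinarith
  intro u hu
  obtain ⟨hu1, hu2⟩ := hu
  set X := Real.exp (L ^ (1 - δ / 2)) with hXdef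
  have hX1 : 1 ≤ X := Real.one_le_exp (by positivity)
  set η := L ^ (δ - 1) / 2 with hη
  have hη0 : 0 < η := by positivity
  have hη2 : L ^ (δ - 1) ≤ 1 := Real.rpow_le_one_of_one_le_of_nonpos hL1 (by linarith)
  have hη1 : η ≤ 1 := by rw [hη]; linarith
  set c := 1 / L ^ (1 - δ / 2) with hc
  have hc0 : 0 < c := by positivity
  have hc1 : c ≤ 1 := by rw [hc, div_le_one hLL0]; exact hLL1
  have h2H : 2 * L < u := by
    have : a * T / 2 ≤ u := hu1
    have h9 : 2 * L ≤ 2 * (a / 9 * T) := by linarith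
    nlinarith [mul_pos ha hT0]
  -- the region
  have hreg : ∀ s ∈ Rc u (2 * η) (2 * L), s.re ≤ 2 →
      riemannZeta s ≠ 0 ∧ ‖riemannZeta s‖ ^ b ≤ L ^ K₀ := by
    intro s hs hs2
    obtain ⟨hs3, hs4⟩ := hs
    have hs5 := abs_lt.1 hs4
    refine hR s ?_ ?_ ?_ hs2
    · nlinarith [mul_pos ha hT0]
    · nlinarith [mul_pos ha hT0]
    · rw [hη] at hs3; linarith
  have hne : ∀ s ∈ Rc u (2 * η) (2 * L), riemannZeta s ≠ 0 := by
    intro s hs
    rcases le_or_gt s.re 2 with h | h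
    · exact (hreg s hs h).1
    · exact riemannZeta_ne_zero_of_one_le_re (by linarith)
  obtain ⟨F, hF1, hF2, hF3⟩ := h2 b u (2 * η) (2 * L) (by linarith) (by linarith) h2H hne
  have hre : ∀ z : ℂ, (1 + u * I + z).re = 1 + z.re := by intro z; simp
  have him : ∀ z : ℂ, (1 + u * I + z).im = u + z.im := by intro z; simp
  have hmem : ∀ z : ℂ, -η ≤ z.re → |z.im| ≤ L → 1 + u * I + z ∈ Rc u (2 * η) (2 * L) := by
    intro z hz1 hz2
    refine ⟨?_, ?_⟩
    · rw [hre]; linarith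
    · rw [him, add_sub_cancel_left]; linarith
  have hopen : IsOpen (Rc u (2 * η) (2 * L)) := by
    unfold Rc
    refine IsOpen.and ?_ ?_
    · exact isOpen_lt continuous_const continuous_re
    · exact isOpen_lt (by fun_prop) continuous_const
  have hVB := h1 (fun z => F (1 + u * I + z)) {z | 1 + u * I + z ∈ Rc u (2 * η) (2 * L)} X η L c
    (L ^ K₀) (hopen.preimage (by fun_prop : Continuous fun z : ℂ => 1 + u * I + z))
    (hF1.comp (by fun_prop) (fun z hz => hz)) hX1 hη0 hη1 hc0 hc1 hL1 (by positivity)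
    (by
      intro z hz1 hz2 hz3
      have hm := hmem z hz1 hz3
      refine ⟨hm, ?_⟩
      rw [hF2 _ hm]
      exact (hreg _ hm (by rw [hre]; linarith)).2)
  have hcongr : (∫ τ in (-L)..L, F (1 + u * I + (c + τ * I)) *
      (Complex.exp (Real.log X * (c + τ * I) + (c + τ * I) ^ 2) / (c + τ * I))) =
      ∫ τ in (-L)..L, LS b (1 + u * I + (c + τ * I)) *
      (Complex.exp (Real.log X * (c + τ * I) + (c + τ * I) ^ 2) / (c + τ * I)) := by
    refine intervalIntegral.integral_congr fun τ hτ => ?_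
    rw [Set.uIcc_of_le (by linarith)] at hτ
    have h5 : ((c : ℂ) + τ * I).re = c := by simp
    have h6 : ((c : ℂ) + τ * I).im = τ := by simp
    have hm := hmem (c + τ * I) (by rw [h5]; linarith) (by rw [h6]; exact abs_le.2 hτ)
    rw [hF3 _ hm (by rw [hre, h5]; linarith)]
  simp only [add_zero] at hVB
  rw [hcongr] at hVB
  have hZL := h4 b u X c L hX1 hc0 hc1 hL1
  have hm0 : 1 + u * I ∈ Rc u (2 * η) (2 * L) := by
    simpa using hmem 0 (by simp; linarith) (by simp; linarith)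
  have hFz := hF2 _ hm0
  -- the size of `X ^ c` and `X ^ (-η)`
  have hXc : X ^ c = Real.exp 1 := by
    rw [hXdef, ← Real.exp_mul, hc, mul_one_div_cancel hLL0.ne']
  have hXη : X ^ (-η) = Real.exp (-(1 / 2 * L ^ (δ / 2))) := by
    rw [hXdef, ← Real.exp_mul, hη]
    congr 1
    have : L ^ (δ / 2) = L ^ (1 - δ / 2) * L ^ (δ - 1) := by
      rw [← Real.rpow_add hL0]; ring_nf
    rw [this]; ring
  have h2c : 2 / c = 2 * L ^ (1 - δ / 2) := by rw [hc]; field_simp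
  have hcc : X ^ c / c = Real.exp 1 * L ^ (1 - δ / 2) := by rw [hXc, hc]; field_simp
  rw [← hFz]
  refine le_trans ?_ herr
  set I1 := (1 / (2 * Real.pi : ℂ)) * ∫ τ in (-L)..L, LS b (1 + u * I + (c + τ * I)) *
      (Complex.exp (Real.log X * (c + τ * I) + (c + τ * I) ^ 2) / (c + τ * I)) with hI1
  have key : ‖F (1 + u * I) - SM b X u‖ ≤ ‖F (1 + u * I) - I1‖ + ‖SM b X u - I1‖ := by
    have : F (1 + u * I) - SM b X u = (F (1 + u * I) - I1) - (SM b X u - I1) := by ring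
    rw [this]; exact norm_sub_le _ _
  have key2 := abs_norm_sub_norm_le (F (1 + u * I)) (SM b X u)
  rw [hXc, hXη] at hVB
  have hZL' : ‖SM b X u - I1‖ ≤ 10 * (2 * L ^ (1 - δ / 2)) ^ |b| * Real.exp 1 *
      L ^ (1 - δ / 2) * Real.exp (-(L ^ 2)) := by
    refine hZL.trans (le_of_eq ?_)
    rw [h2c, show 10 * (2 * L ^ (1 - δ / 2)) ^ |b| * X ^ c / c * Real.exp (-(L ^ 2)) =
      10 * (2 * L ^ (1 - δ / 2)) ^ |b| * (X ^ c / c) * Real.exp (-(L ^ 2)) by ring, hcc]
    ring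
  linarith

end Pool.Agent.W2helper16.ZQ
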